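import Pool.Agent.H31.SC

namespace Pool.Agent.Results.MP_50fe75_gt.Main

open Pool.Agent.H31.SC

universe u v

theorem result {X : Type v} {Y : Type u} [TopologicalSpace X] [TopologicalSpace Y] [T0Space X]
    (i : X → Y) (h : ScottCompletion i) : DCompletion i :=
  main h

end Pool.Agent.Results.MP_50fe75_gt.Main
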